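import Pool.Agent.W658.KZ.Stm
import Pool.Agent.W808.KZ.T_STA

/-!
# Steps A and B from the repaired deterministic steps (task KZR-STAB, helper328)
-/

set_option autoImplicit false

namespace Pool.Agent.W658.KZ
open H974 H906.Cyl
open H12S (Dir hbE segD rimE H4 Crs Nr sqE)
open Pool.Agent.H160R2.ML (nm)
open Pool.Agent.H160R2.MU (Cel csq cpos prd shf BxS Bxs EP inSq PC Bad Cc)
open Pool.Agent.W808.HU (PTr)
open Pool.Agent.W801.OU
open Pool.Agent.W808.KZ

/-- **step A** -/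
theorem t_STA1 : Pool.Agent.H160R2.MU.S_PRB → S_MA1 → S_EXA1 → Pool.Agent.W808.HU.S_TRP →
    S_BADZ → S_DEC → S_IND → S_STA := by
  intro hPRB hMA hEXA hTRP hBADZ hDEC hIND N C hN hC δ hδ
  obtain ⟨M3, M4, hM3, hM4, hB⟩ := hBADZ N hN δ hδ
  have hprd : prd N N = 20 * N := by unfold prd; ring
  obtain ⟨κ, hκ, r0, hT⟩ := hTRP (prd N N) M4 (by omega) (by omega)
  refine ⟨1 / κ, by positivity, max r0 M4, ?_⟩
  intro r hr n M hn hM
  have hr1 : r0 ≤ r := le_trans (le_max_left _ _) hr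
  have hr2 : M4 ≤ r := le_trans (le_max_right _ _) hr
  obtain ⟨hl, hlρ, hρ, hrb⟩ := TSTA.radii hM3 hM4 hr2
  have htrap : κ ≤ PC n M (PTr 1 n M (r / M4)) := by
    have h1 := hT 1 r (by norm_num) hr1
    rw [← hn, ← hM] at h1
    exact h1
  refine TSTA.comb hPRB n M (ExA1 N r C n M)
    (fun F => EZ N r C n (per n (FA N r C n M F)))
    (fun F => Bad 1 N r (r / M3) (r / M4) (prd N N) n M F ∨ BZ N r (r / M3) n F)
    (PTr 1 n M (r / M4))
    (fun F => EZ N r C n (per n (FB N r C n M F))) κ _ hκ ?_ ?_ ?_ htrap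
  · exact TSTA.badp hDEC hIND (by norm_num) hN hl hlρ hρ hn hM
      (hB 1 r (by norm_num) hr2 n M hn hM) _ (FA N r C n M) (fun F _ h => h.1)
      (fun F _ => TSTA.FA_sub) (fun F hF => TSTA.FA_box (by omega) (by omega) hn hF)
  · intro F G hF hG
    exact (hEXA N r C hN (by omega) hC n M hn hM F G hF hG).1
  · intro F G hF hG h1 h2 h3
    exact hMA N r (r / M3) (r / M4) C hN hC hl hlρ hρ n M hn hM F G hF hG
      (fun h => h2 (Or.inl h)) h3 h1

/-- **step B** -/
theorem t_STB1 : Pool.Agent.H160R2.MU.S_PRB → S_MB1 → S_EXB1 → Pool.Agent.W808.HU.S_TRP →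
    S_BADZ → S_DEC → S_IND → S_STB := by
  intro hPRB hMB hEXB hTRP hBADZ hDEC hIND N C hN hC δ hδ
  obtain ⟨M3, M4, hM3, hM4, hB⟩ := hBADZ N hN (δ / 3) (by positivity)
  have hprd : prd N N = 20 * N := by unfold prd; ring
  obtain ⟨κ, hκ, r0, hT⟩ := hTRP (prd N N) M4 (by omega) (by omega)
  refine ⟨3 / κ, by positivity, max r0 M4, ?_⟩
  intro r hr n M hn hM
  have hok : H974.Ok (fun _ : Edg => (1 / 2 : ℝ)) := okq (by norm_num) (by norm_num)
  have hr1 : r0 ≤ r := le_trans (le_max_left _ _) hr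
  have hr2 : M4 ≤ r := le_trans (le_max_right _ _) hr
  obtain ⟨hl, hlρ, hρ, hrb⟩ := TSTA.radii hM3 hM4 hr2
  have htrap : κ ≤ PC n M (PTr 0 n M (r / M4)) := by
    have h1 := hT 0 r (by norm_num) hr1
    rw [← hn, ← hM] at h1
    exact h1
  have key : ∀ c : ℕ, c < 3 → PC n M (fun F => EZc c N r C n (per n (FB N r C n M F))) ≤
      δ / 3 * uR (N * r / 2) + 1 / κ * PC n M (fun F => One n M (per n F)) := by
    intro c hc
    refine TSTA.comb hPRB n M (ExB1 c N r (r / M3) C n M)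
      (fun F => EZc c N r C n (per n (FB N r C n M F)))
      (fun F => Bad 0 N r (r / M3) (r / M4) (prd N N) n M F ∨ BZ N r (r / M3) n F)
      (PTr 0 n M (r / M4))
      (fun F => One n M (per n F)) κ _ hκ ?_ ?_ ?_ htrap
    · exact TSTA.badp hDEC hIND (by norm_num) hN hl hlρ hρ hn hM
        (hB 0 r (by norm_num) hr2 n M hn hM) _ (FB N r C n M) (fun F _ h => h.1)
        (fun F _ => TSTA.FB_sub) (fun F hF => TSTA.FB_box (by omega) (by omega) hn hF)
    · intro F G hF hG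
      exact (hEXB c N r (r / M3) C hN (by omega) (by omega) hρ hC n M hn hM F G hF hG).1
    · intro F G hF hG h1 h2 h3
      exact hMB c N r (r / M3) (r / M4) C hc hN hC hl hlρ hρ n M hn hM F G hF hG
        (fun h => h2 (Or.inl h)) (fun h => h2 (Or.inr h)) h3 h1
  have hsplit : PC n M (fun F => EZ N r C n (per n (FB N r C n M F))) ≤
      PC n M (fun F => EZc 0 N r C n (per n (FB N r C n M F))) +
      (PC n M (fun F => EZc 1 N r C n (per n (FB N r C n M F))) +
      PC n M (fun F => EZc 2 N r C n (per n (FB N r C n M F)))) := by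
    refine le_trans ?_ ((Pr_or_le hok _ _ _).trans (add_le_add le_rfl (Pr_or_le hok _ _ _)))
    refine Pr_mono hok ?_
    rintro F hF ⟨h1, c, hc, h2⟩
    have hc' : c = 0 ∨ c = 1 ∨ c = 2 := by omega
    rcases hc' with rfl | rfl | rfl
    · exact Or.inl ⟨h1, h2⟩
    · exact Or.inr (Or.inl ⟨h1, h2⟩)
    · exact Or.inr (Or.inr ⟨h1, h2⟩)
  have k0 := key 0 (by norm_num)
  have k1 := key 1 (by norm_num)
  have k2 := key 2 (by norm_num)
  have e3 : (3 / κ : ℝ) = 3 * (1 / κ) := by ring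
  rw [e3]
  linarith

end Pool.Agent.W658.KZ
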