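import Pool.Agent.W658.KZ.Stm

/-!
# The strip is far from the zippers (task KZR-STR, helper328)
-/

set_option autoImplicit false

namespace Pool.Agent.W658.KZ
open H974 H906.Cyl
open H12S (Dir hbE segD rimE H4 Crs Nr sqE)
open Pool.Agent.H160R2.ML (nm)
open Pool.Agent.H160R2.MU (Cel csq cpos prd shf BxS Bxs EP inSq PC Bad Cc)
open Pool.Agent.W808.HU (PTr)
open Pool.Agent.W801.OU
open Pool.Agent.W808.KZ

namespace TSTR

/-- the coordinates of an edge of a coarse square -/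
theorem sq_of {r : ℕ} {z : ℤ × ℤ} {e : Edg} (h : e ∈ sqE r z) :
    r * z.1 ≤ e.1 ∧ e.1 ≤ r * z.1 + r ∧ r * z.2 ≤ e.2.1 ∧ e.2.1 ≤ r * z.2 + r := by
  obtain ⟨x, y, b⟩ := e
  unfold sqE at h
  cases b
  · rw [mem_RE_false] at h
    exact ⟨h.1, h.2.1, h.2.2.1, h.2.2.2.le⟩
  · rw [mem_RE_true] at h
    exact ⟨h.1, h.2.1.le, h.2.2.1, h.2.2.2⟩

theorem sq_mem {r : ℕ} {z : ℤ × ℤ} {e : Edg}
    (h : r * z.1 ≤ e.1 ∧ e.1 < r * z.1 + r ∧ r * z.2 ≤ e.2.1 ∧ e.2.1 < r * z.2 + r) :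
    e ∈ sqE r z := by
  obtain ⟨x, y, b⟩ := e
  unfold sqE
  cases b
  · rw [mem_RE_false]
    exact ⟨h.1, h.2.1.le, h.2.2.1, h.2.2.2⟩
  · rw [mem_RE_true]
    exact ⟨h.1, h.2.1, h.2.2.1, h.2.2.2.le⟩

/-- squares of the box number `s` -/
theorem box_mem {N r : ℕ} (hr : 1 ≤ r) {s : ℤ} {e : Edg}
    (h1 : -(N * r : ℤ) ≤ e.1 - 20 * (N * r) * s) (h2 : e.1 - 20 * (N * r) * s < N * r)
    (h3 : -(N * r : ℤ) ≤ e.2.1 - 20 * (N * r) * s) (h4 : e.2.1 - 20 * (N * r) * s < N * r) :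
    e ∈ EB N r := by
  have hr' : (0 : ℤ) < r := by exact_mod_cast hr
  have key : ∀ w : ℤ, -(N * r : ℤ) ≤ w - 20 * (N * r) * s → w - 20 * (N * r) * s < N * r →
      (-(N : ℤ) ≤ w / r - s * (prd N N : ℕ) ∧ w / r - s * (prd N N : ℕ) < N) ∧
        r * (w / r) ≤ w ∧ w < r * (w / r) + r := by
    intro w hw1 hw2
    have e1 : w = (w - 20 * (N * r) * s) + r * (20 * N * s) := by ring
    have e2 : w / r = (w - 20 * (N * r) * s) / r + 20 * N * s := by
      conv_lhs => rw [e1]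
      rw [Int.add_mul_ediv_left _ _ hr'.ne']
    have e3 : (s * (prd N N : ℕ) : ℤ) = 20 * N * s := by
      unfold prd; push_cast; ring
    refine ⟨⟨?_, ?_⟩, Int.mul_ediv_self_le hr'.ne', Int.lt_mul_ediv_self_add hr'⟩
    · rw [e2, e3]
      have : -(N : ℤ) ≤ (w - 20 * (N * r) * s) / r := by
        rw [Int.le_ediv_iff_mul_le hr']
        linarith
      linarith
    · rw [e2, e3]
      have : (w - 20 * (N * r) * s) / r < N := by
        rw [Int.ediv_lt_iff_lt_mul hr']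
        linarith
      linarith
  obtain ⟨⟨a1, a2⟩, a3, a4⟩ := key e.1 h1 h2
  obtain ⟨⟨b1, b2⟩, b3, b4⟩ := key e.2.1 h3 h4
  exact ⟨(e.1 / r, e.2.1 / r), ⟨s, a1, a2, b1, b2⟩, sq_mem ⟨a3, a4, b3, b4⟩⟩

theorem box_of {N r : ℕ} {e : Edg} (h : e ∈ EB N r) : ∃ s : ℤ,
    -(N * r : ℤ) ≤ e.1 - 20 * (N * r) * s ∧ e.1 - 20 * (N * r) * s ≤ N * r ∧
    -(N * r : ℤ) ≤ e.2.1 - 20 * (N * r) * s ∧ e.2.1 - 20 * (N * r) * s ≤ N * r := by
  obtain ⟨z, ⟨s, h1, h2, h3, h4⟩, hz⟩ := h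
  obtain ⟨q1, q2, q3, q4⟩ := sq_of hz
  have e3 : (s * (prd N N : ℕ) : ℤ) = 20 * N * s := by
    unfold prd; push_cast; ring
  simp only [shf] at h1 h2 h3 h4
  rw [e3] at h1 h2 h3 h4
  have hr' : (0 : ℤ) ≤ r := Int.natCast_nonneg r
  have k1 := mul_le_mul_of_nonneg_left h1 hr'
  have k2 := mul_le_mul_of_nonneg_left (show z.1 - 20 * N * s + 1 ≤ N by linarith) hr'
  have k3 := mul_le_mul_of_nonneg_left h3 hr'
  have k4 := mul_le_mul_of_nonneg_left (show z.2 - 20 * N * s + 1 ≤ N by linarith) hr'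
  refine ⟨s, ?_, ?_, ?_, ?_⟩ <;> linarith

end TSTR

open TSTR

theorem t_STR : S_z1 → S_z3 → S_STR := by
  intro _ hz3 N r ρ C hN hρ hr hC n hn e he s
  by_contra hcon
  rw [not_or, not_le, not_le] at hcon
  obtain ⟨ha, hd⟩ := hcon
  obtain ⟨hbt, ⟨e', he1, he2, hx', hy'⟩, hex⟩ := he
  obtain ⟨-, -, -, -, hz⟩ := hz3 N C hN hC _ rfl
  have hN' : (16 : ℤ) ≤ N := by exact_mod_cast hN
  have hρ' : (16 : ℤ) ≤ ρ := by exact_mod_cast hρ
  have hr' : (64 * ρ : ℤ) ≤ r := by exact_mod_cast hr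
  have hn' : (n : ℤ) = 20 * (N * r) := by
    rw [hn]; unfold prd; push_cast; ring
  have hR : (16 * r : ℤ) ≤ N * r := by nlinarith
  have hxy : e.1 - e.2.1 ≤ ρ := by
    obtain ⟨x, y, b⟩ := e
    cases b <;> simp only [dco, if_true, Bool.false_eq_true, if_false] at hd ⊢ <;> omega
  rw [hn'] at ha
  rw [abs_lt] at ha
  obtain ⟨ha1, ha2⟩ := ha
  by_cases hB : e ∈ EB N r
  · obtain ⟨s', b1, b2, b3, b4⟩ := box_of hB
    have hs : s' = s := by
      by_contra hne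
      rcases lt_or_gt_of_ne hne with hlt | hlt
      · have : (N * r : ℤ) * (s' + 1) ≤ N * r * s := by
          apply mul_le_mul_of_nonneg_left (by omega) (by linarith)
        linarith
      · have : (N * r : ℤ) * (s + 1) ≤ N * r * s' := by
          apply mul_le_mul_of_nonneg_left (by omega) (by linarith)
        linarith
    subst hs
    rw [abs_le] at hx' hy'
    by_cases hy : e.2.1 - 20 * (N * r) * s' ≤ N * r - 3 * ρ - 2
    · apply he1
      apply box_mem (s := s') (by omega) <;> linarith [hx'.1, hx'.2, hy'.1, hy'.2]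
    · apply hex
      rw [not_le] at hy
      refine ⟨s', ?_, ?_⟩ <;> rw [hn', abs_le] <;> constructor <;> linarith
  · rcases hbt with h | h
    · exact hB h
    · obtain ⟨z, hzT, hze⟩ := h
      obtain ⟨q1, q2, q3, q4⟩ := sq_of hze
      have e3 : (s * (prd N N : ℕ) : ℤ) = 20 * N * s := by
        unfold prd; push_cast; ring
      have hr0 : (0 : ℤ) < r := by linarith
      have c1 : z.1 + z.2 - 40 * N * s < 1 := by
        by_contra hc
        have := mul_le_mul_of_nonneg_left (not_lt.1 hc) hr0.le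
        linarith
      have c2 : -3 < z.1 + z.2 - 40 * N * s := by
        by_contra hc
        have := mul_le_mul_of_nonneg_left (not_lt.1 hc) hr0.le
        linarith
      have c3 : z.1 - z.2 < 2 := by
        by_contra hc
        have := mul_le_mul_of_nonneg_left (not_lt.1 hc) hr0.le
        linarith
      have := hz z hzT s
      simp only [shf] at this
      rw [e3] at this
      rcases this with h | h | h <;> linarith

end Pool.Agent.W658.KZ
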