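import Pool.Agent.W658.KZ.Coc
import Pool.Agent.W658.KZ.MA1
import Pool.Agent.W956.KZR.TMB1
import Pool.Agent.W382.KZR.SEPB1
import Pool.Agent.W956.KZR.TXCH
import Pool.Agent.W956.KZR.TFRB
import Pool.Agent.W239.KZR.EXA1
import Pool.Agent.W239.KZR.EXB1
import Pool.Agent.W328.KZR.T_STR
import Pool.Agent.W328.KZR.STAB
import Pool.Agent.H160R2.MU.T_PRB
import Pool.Agent.H160R2.MU.T_TRAP
import Pool.Agent.W808.HU.T_TRP
import Pool.Agent.W801.OU.T_TRIc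
import Pool.Agent.W801.OU.T_ONI
import Pool.Agent.W808.KZ.T_ADJ
import Pool.Agent.W808.KZ.T_BADK
import Pool.Agent.W808.KZ.T_BADZ
import Pool.Agent.W808.KZ.T_DEC
import Pool.Agent.W808.KZ.T_DET
import Pool.Agent.W808.KZ.T_DETP
import Pool.Agent.W808.KZ.T_EX
import Pool.Agent.W808.KZ.T_IND
import Pool.Agent.W808.KZ.T_LAND
import Pool.Agent.W808.KZ.T_MON
import Pool.Agent.W808.KZ.T_NC
import Pool.Agent.W808.KZ.T_RCR
import Pool.Agent.W808.KZ.T_UR3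
import Pool.Agent.W808.KZ.T_SEPA
import Pool.Agent.W808.KZ.T_ZC
import Pool.Agent.W808.KZ.T_ZP
import Pool.Agent.W808.KZ.T_z1
import Pool.Agent.W808.KZ.T_z2
import Pool.Agent.W808.KZ.T_z3

/-!
# The upper bound for the three arm event of the dislocated plane: assembly with the repaired steps
-/

set_option autoImplicit false

namespace Pool.Agent.W658.KZ
open Pool.Agent.W808.KZ
open Pool.Agent.W801.OU (S_UR3)

theorem a_z2 : S_z2 := t_z2 t_z1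
theorem a_EX : S_EX := t_EX t_z1 t_z3
theorem a_XCH : S_XCH := t_XCH a_EX t_z1 t_z3
theorem a_EXA1 : S_EXA1 := Pool.Agent.W239.KZR.t_EXA1 t_z3
theorem a_EXB1 : S_EXB1 := Pool.Agent.W239.KZR.t_EXB1 t_z3
theorem a_STR : S_STR := t_STR t_z1 t_z3
theorem a_FRB : S_FRB := t_FRB t_z3
theorem a_SEPA : S_SEPA := t_SEPA t_z1 a_z2 t_z3
theorem a_SEPB1 : S_SEPB1 := Pool.Agent.W382.KZR.t_SEPB1 t_z1 a_z2 t_z3 a_FRB
theorem a_MA1 : S_MA1 :=
  t_MA1 Pool.Agent.W801.OU.t_TRIc a_z2 t_z3 a_EX a_XCH a_EXA1 a_SEPA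
theorem a_MB1 : S_MB1 :=
  t_MB1 Pool.Agent.W801.OU.t_TRIc t_COC t_NA a_XCH t_z1 a_z2 t_z3 a_EX a_EXB1 a_STR a_FRB a_SEPB1
theorem a_NC : S_NC := t_NC Pool.Agent.W801.OU.t_TRIc
theorem a_BADZ : S_BADZ := t_BADZ t_BADK (t_ZP t_ZC)
theorem a_TRP : Pool.Agent.W808.HU.S_TRP := Pool.Agent.W808.HU.t_TRP Pool.Agent.H160R2.MU.t_TRAP
theorem a_LAND : S_LAND := t_LAND t_ADJ a_NC t_ZC
theorem a_DET : S_DET := t_DET Pool.Agent.W801.OU.t_TRIc t_z1 a_z2 t_z3 a_EX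
theorem a_DETP : S_DETP := t_DETP a_DET

theorem a_STA : S_STA :=
  t_STA1 Pool.Agent.H160R2.MU.t_PRB a_MA1 a_EXA1 a_TRP a_BADZ t_DEC t_IND

theorem a_STB : S_STB :=
  t_STB1 Pool.Agent.H160R2.MU.t_PRB a_MB1 a_EXB1 a_TRP a_BADZ t_DEC t_IND

theorem a_RCR : S_RCR :=
  t_RCR a_LAND a_DETP a_STA a_STB Pool.Agent.W801.OU.t_ONE

/-- **the upper bound for the three arm event of the dislocated plane** -/
theorem a_UR3 : S_UR3 := t_UR3 a_RCR t_MON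

end Pool.Agent.W658.KZ
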